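import Pool.Agent.H98.AM.Targets

/-!
# Critical almost Mathieu operator, modules F1 and F3: quasi-periodic extensions, spectral projections
-/

open scoped ComplexConjugate
open Pool.Agent.H98.AM

noncomputable section

namespace Pool.Agent.H81.AM

/-! ### phases -/

lemma ex_int (k : ℤ) : ex (k : ℝ) = 1 := by
  unfold ex
  rw [show (2 * (Real.pi : ℂ) * ((k : ℝ) : ℂ) * Complex.I) = (k : ℂ) * (2 * Real.pi * Complex.I) by
    push_cast; ring]
  exact Complex.exp_int_mul_two_pi_mul_I k

lemma ex_add (a b : ℝ) : ex (a + b) = ex a * ex b := by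
  unfold ex
  rw [← Complex.exp_add]
  congr 1
  push_cast
  ring

lemma ex_add_int (a : ℝ) (k : ℤ) : ex (a + k) = ex a := by rw [ex_add, ex_int, mul_one]

lemma norm_ex (a : ℝ) : ‖ex a‖ = 1 := by
  unfold ex
  rw [show (2 * (Real.pi : ℂ) * (a : ℂ) * Complex.I) = ((2 * Real.pi * a : ℝ) : ℂ) * Complex.I by
    push_cast; ring]
  exact Complex.norm_exp_ofReal_mul_I _

lemma conj_ex (a : ℝ) : conj (ex a) = ex (-a) := by
  unfold ex
  rw [← Complex.exp_conj]
  congr 1
  simp only [map_mul, Complex.conj_ofReal, Complex.conj_I, map_ofNat]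
  push_cast
  ring

lemma ex_pow (a : ℝ) (n : ℕ) : ex a ^ n = ex (n * a) := by
  unfold ex
  rw [← Complex.exp_nat_mul]
  congr 1
  push_cast
  ring

/-- the bonds are periodic -/
lemma bnd_add (p : ℤ) (s : ℕ) [NeZero s] (θ : ℝ) (n k : ℤ) :
    bnd (p / s) θ (n + s * k) = bnd (p / s) θ n := by
  unfold bnd
  congr 1
  have hs : (s : ℝ) ≠ 0 := Nat.cast_ne_zero.2 (NeZero.ne s)
  have : ((n + s * k : ℤ) : ℝ) * (p / s) + θ = (n * (p / s) + θ) + ((k * p : ℤ) : ℝ) := by
    push_cast
    field_simp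
    ring
  rw [this, ex_add_int]

/-- a periodic function is determined by its values on residues -/
lemma per_val {X : Type} (N : ℕ) [NeZero N] (Ψ : ℤ → X) (h : ∀ n k : ℤ, Ψ (n + N * k) = Ψ n) (k : ℤ) :
    Ψ (((k : ZMod N).val : ℕ) : ℤ) = Ψ k := by
  rw [ZMod.val_intCast]
  conv_rhs => rw [← Int.emod_add_mul_ediv k N]
  rw [h]

lemma bnd_val (p : ℤ) (s : ℕ) [NeZero s] (θ : ℝ) (n : ℤ) :
    bnd (p / s) θ (((n : ZMod s).val : ℕ) : ℤ) = bnd (p / s) θ n :=
  per_val s (bnd (p / s) θ) (bnd_add p s θ) n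

/-- the twist -/
lemma conj_mul_self {ζ : ℂ} (hζ : ‖ζ‖ = 1) : conj ζ * ζ = 1 := by
  rw [mul_comm, Complex.mul_conj, Complex.normSq_eq_norm_sq, hζ]
  norm_num

lemma twist (s : ℕ) [NeZero s] {ζ : ℂ} (hζ : ‖ζ‖ = 1) (n : ℤ) :
    (conj ζ) ^ ((n - 1) / (s : ℤ)) = (conj ζ) ^ (n / (s : ℤ)) * (if (n : ZMod s) = 0 then ζ else 1) := by
  have hs : (0 : ℤ) < s := by exact_mod_cast Nat.pos_of_ne_zero (NeZero.ne s)
  have hζ0 : conj ζ ≠ 0 := by
    intro h
    have := conj_mul_self hζ
    rw [h, zero_mul] at this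
    exact zero_ne_one this
  by_cases h : (n : ZMod s) = 0
  · rw [if_pos h]
    obtain ⟨k, rfl⟩ := (ZMod.intCast_zmod_eq_zero_iff_dvd n s).1 h
    have h1 : ((s : ℤ) * k - 1) / s = k - 1 := by
      rw [show (s : ℤ) * k - 1 = (s - 1) + s * (k - 1) by ring, Int.add_mul_ediv_left _ _ hs.ne',
        Int.ediv_eq_zero_of_lt (by omega) (by omega), zero_add]
    rw [h1, Int.mul_ediv_cancel_left _ hs.ne', zpow_sub_one₀ hζ0]
    congr 1
    exact inv_eq_of_mul_eq_one_right (conj_mul_self hζ)
  · rw [if_neg h, mul_one]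
    congr 1
    have h0 : ¬ (s : ℤ) ∣ n := fun h' => h ((ZMod.intCast_zmod_eq_zero_iff_dvd n s).2 h')
    have h1 := Int.emod_add_mul_ediv n s
    have h2 := Int.emod_nonneg n hs.ne'
    have h3 := Int.emod_lt_of_pos n hs
    have h4 : n % s ≠ 0 := fun h' => h0 (Int.dvd_of_emod_eq_zero h')
    conv_lhs => rw [← h1]
    rw [show n % s + s * (n / s) - 1 = (n % s - 1) + s * (n / s) by ring,
      Int.add_mul_ediv_left _ _ hs.ne', Int.ediv_eq_zero_of_lt (by omega) (by omega), zero_add]

/-- quasi-periodic extension intertwines the fibre and the line operator -/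
theorem f1 : T_F1 := by
  intro p s _ θ ζ f n hζ
  have e1 := twist s hζ n
  have e2 := twist s hζ (n + 1)
  have hc := conj_mul_self hζ
  rw [add_sub_cancel_right] at e2
  have e3 : (conj ζ) ^ ((n + 1) / (s : ℤ)) = (conj ζ) ^ (n / (s : ℤ)) *
      conj (if ((n + 1 : ℤ) : ZMod s) = 0 then ζ else 1) := by
    rw [e2]
    split_ifs
    · rw [mul_assoc, mul_comm ζ, hc, mul_one]
    · simp
  have h1 : (Fi p s θ ζ f) (n : ZMod s) = fb p s θ ζ (n : ZMod s) * f ((n : ZMod s) - 1) +
      conj (fb p s θ ζ ((n : ZMod s) + 1)) * f ((n : ZMod s) + 1) := rfl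
  have hp1 : (n : ZMod s) + 1 = ((n + 1 : ℤ) : ZMod s) := by push_cast; ring
  have hm1 : (n : ZMod s) - 1 = ((n - 1 : ℤ) : ZMod s) := by push_cast; ring
  unfold lop ext
  rw [h1, hp1, hm1, e1, e3]
  unfold fb
  rw [bnd_val, bnd_val]
  rw [map_mul]
  ring

/-! ### independence of the eigenbasis -/

section F3

variable {H : Type} [NormedAddCommGroup H] [InnerProductSpace ℂ H] {ι κ : Type} [Fintype ι] [Fintype κ]

lemma sym_of_eb {T : H →ₗ[ℂ] H} {u : OrthonormalBasis ι ℂ H} {ev : ι → ℝ} (h : IsEB T u ev) (i : ι)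
    (g : H) : inner ℂ (u i) (T g) = ev i * inner ℂ (u i) g := by
  classical
  conv_lhs => rw [← u.sum_repr g]
  rw [map_sum, inner_sum]
  have : ∀ j ∈ Finset.univ, inner ℂ (u i) (T (u.repr g j • u j)) =
      if i = j then (ev i : ℂ) * u.repr g i else 0 := by
    intro j _
    rw [map_smul, h j, inner_smul_right, inner_smul_right, orthonormal_iff_ite.1 u.orthonormal]
    split_ifs with hij
    · subst hij; ring
    · simp
  rw [Finset.sum_congr rfl this]
  simp [u.repr_apply_apply]

lemma inner_eq_zero {T : H →ₗ[ℂ] H} {u : OrthonormalBasis ι ℂ H} {ev : ι → ℝ} {w : OrthonormalBasis κ ℂ H}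
    {ew : κ → ℝ} (h : IsEB T u ev) (h' : IsEB T w ew) (i : ι) (j : κ) (hne : ev i ≠ ew j) :
    inner ℂ (u i) (w j) = 0 := by
  have h1 := sym_of_eb h i (w j)
  rw [h' j, inner_smul_right] at h1
  have h2 : ((ew j : ℂ) - ev i) * inner ℂ (u i) (w j) = 0 := by rw [sub_mul, h1, sub_self]
  rcases mul_eq_zero.1 h2 with h3 | h3
  · exfalso
    apply hne
    have : (ew j : ℂ) = ev i := sub_eq_zero.1 h3
    exact_mod_cast this.symm
  · exact h3

lemma pj_add (u : OrthonormalBasis ι ℂ H) (ev : ι → ℝ) (S : Set ℝ) (f g : H) :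
    pj u ev S (f + g) = pj u ev S f + pj u ev S g := by
  unfold pj
  rw [← Finset.sum_add_distrib]
  apply Finset.sum_congr rfl
  intro i _
  split_ifs
  · rw [inner_add_right, add_smul]
  · rw [add_zero]

lemma pj_smul (u : OrthonormalBasis ι ℂ H) (ev : ι → ℝ) (S : Set ℝ) (c : ℂ) (f : H) :
    pj u ev S (c • f) = c • pj u ev S f := by
  unfold pj
  rw [Finset.smul_sum]
  apply Finset.sum_congr rfl
  intro i _
  split_ifs
  · rw [inner_smul_right, mul_smul]
  · rw [smul_zero]

/-- the projection as a linear map -/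
def pjL (u : OrthonormalBasis ι ℂ H) (ev : ι → ℝ) (S : Set ℝ) : H →ₗ[ℂ] H where
  toFun := pj u ev S
  map_add' := pj_add u ev S
  map_smul' := pj_smul u ev S

theorem f3_gen (T : H →ₗ[ℂ] H) (u : OrthonormalBasis ι ℂ H) (ev : ι → ℝ) (w : OrthonormalBasis κ ℂ H)
    (ew : κ → ℝ) (h : IsEB T u ev) (h' : IsEB T w ew) (S : Set ℝ) :
    (∀ f, pj u ev S f = pj w ew S f) ∧
    Nat.card {i // ev i ∈ S} = Nat.card {i // ew i ∈ S} := by
  classical
  constructor
  · have hL : pjL u ev S = pjL w ew S := by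
      apply u.toBasis.ext
      intro i
      change pj u ev S (u.toBasis i) = pj w ew S (u.toBasis i)
      rw [u.coe_toBasis]
      have h1 : pj u ev S (u i) = if ev i ∈ S then u i else 0 := by
        unfold pj
        rw [Finset.sum_eq_single i]
        · rw [orthonormal_iff_ite.1 u.orthonormal, if_pos rfl, one_smul]
        · intro j _ hj
          rw [orthonormal_iff_ite.1 u.orthonormal, if_neg hj, zero_smul]
          simp
        · intro hi
          exact absurd (Finset.mem_univ i) hi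
      have h2 : pj w ew S (u i) = if ev i ∈ S then u i else 0 := by
        have h3 : ∀ j ∈ Finset.univ, (if ew j ∈ S then inner ℂ (w j) (u i) • w j else 0) =
            if ev i ∈ S then inner ℂ (w j) (u i) • w j else 0 := by
          intro j _
          by_cases hij : ev i = ew j
          · rw [hij]
          · rw [inner_eq_zero h' h j i (fun e => hij e.symm)]
            simp
        unfold pj
        rw [Finset.sum_congr rfl h3]
        split_ifs
        · exact w.sum_repr' (u i)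
        · simp
      rw [h1, h2]
    intro f
    exact DFunLike.congr_fun hL f
  · have hu : ∀ i, ∑ j, ‖inner ℂ (w j) (u i)‖ ^ 2 = 1 := by
      intro i
      rw [w.sum_sq_norm_inner_right, u.norm_eq_one, one_pow]
    have hw : ∀ j, ∑ i, ‖inner ℂ (w j) (u i)‖ ^ 2 = 1 := by
      intro j
      rw [u.sum_sq_norm_inner_left, w.norm_eq_one, one_pow]
    have h1 : (Nat.card {i // ev i ∈ S} : ℝ) = ∑ i, if ev i ∈ S then (1 : ℝ) else 0 := by
      rw [Nat.card_eq_fintype_card, Fintype.card_subtype, Finset.sum_boole]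
    have h2 : (Nat.card {i // ew i ∈ S} : ℝ) = ∑ i, if ew i ∈ S then (1 : ℝ) else 0 := by
      rw [Nat.card_eq_fintype_card, Fintype.card_subtype, Finset.sum_boole]
    have h3 : (Nat.card {i // ev i ∈ S} : ℝ) = (Nat.card {i // ew i ∈ S} : ℝ) := by
      rw [h1, h2]
      have e1 : ∀ i ∈ Finset.univ, (if ev i ∈ S then (1 : ℝ) else 0) =
          ∑ j, if ev i ∈ S then ‖inner ℂ (w j) (u i)‖ ^ 2 else 0 := by
        intro i _
        split_ifs
        · exact (hu i).symm
        · simp
      have e2 : ∀ j ∈ Finset.univ, (if ew j ∈ S then (1 : ℝ) else 0) =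
          ∑ i, if ew j ∈ S then ‖inner ℂ (w j) (u i)‖ ^ 2 else 0 := by
        intro j _
        split_ifs
        · exact (hw j).symm
        · simp
      rw [Finset.sum_congr rfl e1, Finset.sum_congr rfl e2, Finset.sum_comm]
      apply Finset.sum_congr rfl
      intro j _
      apply Finset.sum_congr rfl
      intro i _
      by_cases hij : ev i = ew j
      · rw [hij]
      · rw [inner_eq_zero h' h j i (fun e => hij e.symm)]
        simp
    exact_mod_cast h3

end F3

/-- spectral projections and eigenvalue counts do not depend on the eigenbasis -/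
theorem f3 : T_F3 := by
  intro N _ T ι κ _ _ u ev w ew h h' S
  exact f3_gen T u ev w ew h h' S

end Pool.Agent.H81.AM
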