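import Pool.Agent.H81.AM.F1

/-!
# Critical almost Mathieu operator, module F2: Bloch eigenbasis of a ring
-/

open scoped ComplexConjugate
open Pool.Agent.H98.AM Finset

noncomputable section

namespace Pool.Agent.H81.AM

lemma sum_val (N : ℕ) [NeZero N] {A : Type} [AddCommMonoid A] (G : ℕ → A) :
    ∑ n : ZMod N, G n.val = ∑ x ∈ range N, G x := by
  refine Finset.sum_bij (fun n _ => n.val) (fun n _ => mem_range.2 (ZMod.val_lt n))
    (fun a _ b _ h => ZMod.val_injective N h) ?_ (fun _ _ => rfl)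
  intro x hx
  exact ⟨(x : ZMod N), mem_univ _, ZMod.val_cast_of_lt (mem_range.1 hx)⟩

lemma sum_blocks {A : Type} [AddCommMonoid A] (G : ℕ → A) (s M : ℕ) :
    ∑ x ∈ range (M * s), G x = ∑ m ∈ range M, ∑ v ∈ range s, G (m * s + v) := by
  induction M with
  | zero => simp
  | succ M ih => rw [sum_range_succ, ← ih, Nat.succ_mul, sum_range_add]

lemma ext_block (s : ℕ) [NeZero s] (ζ : ℂ) (f : ZMod s → ℂ) (m v : ℕ) (hv : v < s) :
    ext s ζ f (((m * s + v : ℕ) : ℕ) : ℤ) = (conj ζ) ^ m * f (v : ZMod s) := by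
  have hs : (0 : ℤ) < s := by exact_mod_cast Nat.pos_of_ne_zero (NeZero.ne s)
  unfold Pool.Agent.H98.AM.ext
  congr 1
  · rw [← zpow_natCast]
    congr 1
    push_cast
    rw [add_comm, Int.add_mul_ediv_right _ _ hs.ne', Int.ediv_eq_zero_of_lt (by omega) (by omega), zero_add]
  · congr 1
    push_cast
    simp

lemma ext_period (s M : ℕ) [NeZero s] {ζ : ℂ} (hζ : ‖ζ‖ = 1) (hM : ζ ^ M = 1) (f : ZMod s → ℂ) (n k : ℤ) :
    ext s ζ f (n + ((M * s : ℕ) : ℤ) * k) = ext s ζ f n := by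
  have hs : (0 : ℤ) < s := by exact_mod_cast Nat.pos_of_ne_zero (NeZero.ne s)
  have hζ0 : conj ζ ≠ 0 := by
    intro h
    have := conj_mul_self hζ
    rw [h, zero_mul] at this
    exact zero_ne_one this
  unfold Pool.Agent.H98.AM.ext
  congr 1
  · have : n + ((M * s : ℕ) : ℤ) * k = n + s * (M * k) := by push_cast; ring
    rw [this, Int.add_mul_ediv_left _ _ hs.ne', zpow_add₀ hζ0, zpow_mul, zpow_natCast, ← map_pow, hM]
    simp
  · congr 1
    push_cast
    simp

lemma exk_norm (a : ℝ) : ‖ex a‖ = 1 := norm_ex a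

lemma exk_pow (k M : ℕ) [NeZero M] : ex ((k : ℝ) / (M : ℝ)) ^ M = 1 := by
  rw [ex_pow]
  have hM : (M : ℝ) ≠ 0 := Nat.cast_ne_zero.2 (NeZero.ne M)
  have : (M : ℝ) * ((k : ℝ) / M) = ((k : ℤ) : ℝ) := by
    push_cast; field_simp
  rw [this, ex_int]

lemma ex_eq_one {a : ℝ} (h : ex a = 1) : ∃ n : ℤ, a = n := by
  unfold ex at h
  obtain ⟨n, hn⟩ := Complex.exp_eq_one_iff.1 h
  refine ⟨n, ?_⟩
  have h2 : (2 * (Real.pi : ℂ) * Complex.I) ≠ 0 := Complex.two_pi_I_ne_zero
  have h3 : (a : ℂ) * (2 * (Real.pi : ℂ) * Complex.I) = (n : ℂ) * (2 * (Real.pi : ℂ) * Complex.I) := by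
    rw [← hn]; ring
  have h4 := mul_right_cancel₀ h2 h3
  exact_mod_cast h4

lemma geom (M : ℕ) [NeZero M] (k l : Fin M) :
    ∑ m ∈ range M, (ex ((k : ℕ) / (M : ℝ)) * conj (ex ((l : ℕ) / (M : ℝ)))) ^ m =
      if k = l then (M : ℂ) else 0 := by
  have hM : (0 : ℝ) < (M : ℝ) := by exact_mod_cast Nat.pos_of_ne_zero (NeZero.ne M)
  split_ifs with h
  · subst h
    rw [mul_comm, conj_mul_self (norm_ex _)]
    simp
  · set x := ex ((k : ℕ) / (M : ℝ)) * conj (ex ((l : ℕ) / (M : ℝ))) with hx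
    have hx1 : x ≠ 1 := by
      intro h1
      rw [hx, conj_ex, ← ex_add] at h1
      obtain ⟨n, hn⟩ := ex_eq_one h1
      have h2 : ((k : ℕ) : ℝ) - (l : ℕ) = n * M := by
        rw [← hn]; field_simp; ring
      have h3 : ((k : ℕ) : ℤ) - (l : ℕ) = n * M := by exact_mod_cast h2
      have hk := k.2
      have hl := l.2
      have hn0 : n = 0 := by
        by_contra hne
        rcases lt_or_gt_of_ne hne with h' | h'
        · have : n * M ≤ -1 * M := by
            apply mul_le_mul_of_nonneg_right (by omega) (by positivity)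
          omega
        · have : 1 * (M : ℤ) ≤ n * M := by
            apply mul_le_mul_of_nonneg_right (by omega) (by positivity)
          omega
      rw [hn0, zero_mul] at h3
      exact h (Fin.ext (by omega))
    have hxM : x ^ M = 1 := by
      rw [hx, mul_pow, ← map_pow, exk_pow, exk_pow]
      simp
    have := geom_sum_mul x M
    rw [hxM, sub_self] at this
    exact (mul_eq_zero.1 this).resolve_right (sub_ne_zero.2 hx1)

/-- Bloch eigenbasis -/
theorem f2 : T_F2 := by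
  intro p s M _ _ θ φ ev hs h
  have : NeZero (M * s) := inferInstance
  have hM : (0 : ℝ) < (M : ℝ) := by exact_mod_cast Nat.pos_of_ne_zero (NeZero.ne M)
  let v : Fin M × Fin s → Rg (M * s) := fun x => WithLp.toLp 2 fun n =>
    (1 / Real.sqrt M : ℝ) * ext s (ex ((x.1 : ℕ) / (M : ℝ))) (φ x.1 x.2) (n.val : ℤ)
  have hv : ∀ x n, v x n = (1 / Real.sqrt M : ℝ) *
      ext s (ex ((x.1 : ℕ) / (M : ℝ))) (φ x.1 x.2) (n.val : ℤ) := fun _ _ => rfl
  have hfib : ∀ f g : Rg s, ∑ a ∈ range s, conj (f (a : ZMod s)) * g (a : ZMod s) = inner ℂ f g := by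
    intro f g
    rw [PiLp.inner_apply, ← sum_val s (fun a => conj (f (a : ZMod s)) * g (a : ZMod s))]
    apply sum_congr rfl
    intro n _
    rw [ZMod.natCast_zmod_val, RCLike.inner_apply, mul_comm]
  have hon : Orthonormal ℂ v := by
    rw [orthonormal_iff_ite]
    rintro ⟨k, i⟩ ⟨l, j⟩
    rw [PiLp.inner_apply]
    have e1 : ∀ n ∈ (univ : Finset (ZMod (M * s))), inner ℂ (v (k, i) n) (v (l, j) n) =
        (1 / M : ℂ) * (conj (ext s (ex ((k : ℕ) / (M : ℝ))) (φ k i) (n.val : ℤ)) *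
          ext s (ex ((l : ℕ) / (M : ℝ))) (φ l j) (n.val : ℤ)) := by
      intro n _
      rw [RCLike.inner_apply, hv, hv, map_mul, Complex.conj_ofReal]
      have : ((1 / Real.sqrt M : ℝ) : ℂ) * ((1 / Real.sqrt M : ℝ) : ℂ) = 1 / M := by
        rw [← Complex.ofReal_mul, div_mul_div_comm, Real.mul_self_sqrt hM.le]
        push_cast; ring
      rw [← this]
      ring
    rw [sum_congr rfl e1, ← mul_sum,
      sum_val (M * s) (fun a => conj (ext s (ex ((k : ℕ) / (M : ℝ))) (φ k i) (a : ℤ)) *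
          ext s (ex ((l : ℕ) / (M : ℝ))) (φ l j) (a : ℤ)), sum_blocks]
    have e2 : ∀ m ∈ range M, ∑ a ∈ range s,
        conj (ext s (ex ((k : ℕ) / (M : ℝ))) (φ k i) ((m * s + a : ℕ) : ℤ)) *
          ext s (ex ((l : ℕ) / (M : ℝ))) (φ l j) ((m * s + a : ℕ) : ℤ) =
        (ex ((k : ℕ) / (M : ℝ)) * conj (ex ((l : ℕ) / (M : ℝ)))) ^ m * inner ℂ (φ k i) (φ l j) := by
      intro m _
      rw [← hfib, mul_sum]
      apply sum_congr rfl
      intro a ha
      rw [ext_block s _ _ m a (mem_range.1 ha), ext_block s _ _ m a (mem_range.1 ha), map_mul, map_pow,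
        Complex.conj_conj, mul_pow]
      ring
    rw [sum_congr rfl e2, ← sum_mul, geom]
    by_cases hkl : k = l
    · subst hkl
      rw [if_pos rfl, orthonormal_iff_ite.1 (φ k).orthonormal, ← mul_assoc, one_div,
        inv_mul_cancel₀ (by exact_mod_cast hM.ne'), one_mul]
      simp
    · rw [if_neg hkl, if_neg (by simp [hkl])]
      simp
  obtain ⟨b, hb⟩ := Orthonormal.exists_orthonormalBasis_extension_of_card_eq (𝕜 := ℂ)
    (ι := Fin M × Fin s) (E := Rg (M * s)) (by simp [ZMod.card]) (v := v) (s := Set.univ)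
    (hon.comp _ Subtype.val_injective)
  have hbv : ∀ x, b x = v x := fun x => hb x (Set.mem_univ x)
  refine ⟨b, ?_, fun k i n => by rw [hbv, hv]⟩
  rintro ⟨k, i⟩
  rw [hbv]
  have hζ := norm_ex ((k : ℕ) / (M : ℝ))
  have hper := ext_period s M hζ (exk_pow (k : ℕ) M) (φ k i)
  have hperv : ∀ a : ℤ, ext s (ex ((k : ℕ) / (M : ℝ))) (φ k i)
      ((((a : ZMod (M * s)).val : ℕ) : ℤ)) = ext s (ex ((k : ℕ) / (M : ℝ))) (φ k i) a := fun a =>
    per_val (M * s) _ hper a
  have hbper : ∀ a : ℤ, bnd (p / s) θ ((((a : ZMod (M * s)).val : ℕ) : ℤ)) = bnd (p / s) θ a := by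
    intro a
    refine per_val (M * s) _ (fun n j => ?_) a
    have : n + ((M * s : ℕ) : ℤ) * j = n + s * (M * j) := by push_cast; ring
    rw [this, bnd_add]
  ext n
  have h1 : (Tr (p / s) θ (M * s) (v (k, i))) n = rb (p / s) θ (M * s) n * v (k, i) (n - 1) +
      conj (rb (p / s) θ (M * s) (n + 1)) * v (k, i) (n + 1) := rfl
  have h2 : ((ev k i : ℂ) • v (k, i)) n = ev k i * v (k, i) n := rfl
  have hn : n = (((n.val : ℕ) : ℤ) : ZMod (M * s)) := by simp
  have hn1 : n - 1 = (((n.val : ℕ) - 1 : ℤ) : ZMod (M * s)) := by simp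
  have hn2 : n + 1 = (((n.val : ℕ) + 1 : ℤ) : ZMod (M * s)) := by simp
  rw [h1, h2]
  simp only [hv, rb]
  rw [hn1, hn2, hperv, hperv, hbper]
  have h3 := f1 p s θ (ex ((k : ℕ) / (M : ℝ))) (φ k i) (n.val : ℤ) hζ
  have h4 : ext s (ex ((k : ℕ) / (M : ℝ))) (Fi p s θ (ex ((k : ℕ) / (M : ℝ))) (φ k i)) (n.val : ℤ) =
      ev k i * ext s (ex ((k : ℕ) / (M : ℝ))) (φ k i) (n.val : ℤ) := by
    rw [h k i]
    unfold Pool.Agent.H98.AM.ext
    have : ∀ x : ZMod s, ((ev k i : ℂ) • φ k i) x = ev k i * φ k i x := fun _ => rfl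
    rw [this]
    ring
  rw [h4] at h3
  unfold lop at h3
  linear_combination ((1 / Real.sqrt M : ℝ) : ℂ) * h3

end Pool.Agent.H81.AM
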