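import Pool.Agent.H81.AM.F6

/-!
# Critical almost Mathieu operator, modules F4, F5: density of states at the weak bonds of a ring
-/

open scoped ComplexConjugate
open Pool.Agent.H98.AM Finset Polynomial

noncomputable section

namespace Pool.Agent.H81.AM

lemma dft (M : ℕ) [NeZero M] (a : Fin M → ℂ) :
    ∑ k : Fin M, ‖∑ m : Fin M, ex ((k : ℕ) / (M : ℝ)) ^ (m : ℕ) * a m‖ ^ 2 = M * ∑ m, ‖a m‖ ^ 2 := by
  have hsw : ∀ k m : Fin M, ex ((k : ℕ) / (M : ℝ)) ^ (m : ℕ) = ex ((m : ℕ) / (M : ℝ)) ^ (k : ℕ) := by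
    intro k m
    rw [ex_pow, ex_pow]
    congr 1
    ring
  have h : ((∑ k : Fin M, ‖∑ m : Fin M, ex ((k : ℕ) / (M : ℝ)) ^ (m : ℕ) * a m‖ ^ 2 : ℝ) : ℂ) =
      ((M * ∑ m, ‖a m‖ ^ 2 : ℝ) : ℂ) := by
    push_cast
    have h1 : ∀ k ∈ (univ : Finset (Fin M)),
        ((‖∑ m : Fin M, ex ((k : ℕ) / (M : ℝ)) ^ (m : ℕ) * a m‖ : ℂ)) ^ 2 =
        ∑ m : Fin M, ∑ l : Fin M, (a m * conj (a l)) *
          (ex ((m : ℕ) / (M : ℝ)) * conj (ex ((l : ℕ) / (M : ℝ)))) ^ (k : ℕ) := by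
      intro k _
      rw [← Complex.mul_conj', map_sum, sum_mul_sum]
      apply sum_congr rfl; intro m _
      apply sum_congr rfl; intro l _
      rw [hsw k m, hsw k l, map_mul, map_pow, mul_pow]
      ring
    rw [sum_congr rfl h1, sum_comm]
    rw [mul_sum]
    apply sum_congr rfl; intro m _
    rw [sum_comm]
    have h2 : ∀ l ∈ (univ : Finset (Fin M)), ∑ k : Fin M, (a m * conj (a l)) *
          (ex ((m : ℕ) / (M : ℝ)) * conj (ex ((l : ℕ) / (M : ℝ)))) ^ (k : ℕ) =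
          if m = l then (M : ℂ) * (a m * conj (a l)) else 0 := by
      intro l _
      rw [← mul_sum, ← Finset.sum_range (fun k => (ex ((m : ℕ) / (M : ℝ)) *
        conj (ex ((l : ℕ) / (M : ℝ)))) ^ k), geom]
      split_ifs
      · ring
      · ring
    rw [sum_congr rfl h2, sum_ite_eq, if_pos (mem_univ m), Complex.mul_conj']
  exact_mod_cast h

variable {s M : ℕ} [NeZero s] [NeZero M]

lemma inner_weak (hs : 3 ≤ s) (φ : Rg s) (w : Rg (M * s)) (ζ : ℂ)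
    (hw : ∀ n : ZMod (M * s), w n = (1 / Real.sqrt M : ℝ) * Pool.Agent.H98.AM.ext s ζ φ (n.val : ℤ))
    (f : Rg (M * s)) :
    inner ℂ w (Qp s f) =
      conj (φ 0) * ((1 / Real.sqrt M : ℝ) * ∑ m : Fin M, ζ ^ (m : ℕ) * f (((m : ℕ) * s : ℕ) : ZMod (M * s))) +
      conj (φ (-1)) * ((1 / Real.sqrt M : ℝ) * ∑ m : Fin M, ζ ^ (m : ℕ) *
        f (((m : ℕ) * s + (s - 1) : ℕ) : ZMod (M * s))) := by
  have hs1 : ((s - 1 : ℕ) : ZMod s) = -1 := by
    rw [Nat.cast_sub (by omega)]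
    simp
  rw [PiLp.inner_apply]
  let G : ℕ → ℂ := fun x : ℕ => (if x % s = 0 ∨ x % s = s - 1 then (1 : ℂ) else 0) *
    f (x : ZMod (M * s)) * conj ((1 / Real.sqrt M : ℝ) * Pool.Agent.H98.AM.ext s ζ φ (x : ℤ))
  have h1 : ∀ n ∈ (univ : Finset (ZMod (M * s))), inner ℂ (w n) ((Qp s f) n) = G n.val := by
    intro n _
    have h2 : (Qp s f) n = (if n.val % s = 0 ∨ n.val % s = s - 1 then 1 else 0) * f n := rfl
    simp only [RCLike.inner_apply, h2, hw, G, ZMod.natCast_zmod_val]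
  rw [sum_congr rfl h1, sum_val (M * s) G, sum_blocks]
  have h3 : ∀ m ∈ range M, ∑ v ∈ range s, (if (m * s + v) % s = 0 ∨ (m * s + v) % s = s - 1 then (1 : ℂ)
      else 0) * f ((m * s + v : ℕ) : ZMod (M * s)) *
        conj ((1 / Real.sqrt M : ℝ) * Pool.Agent.H98.AM.ext s ζ φ ((m * s + v : ℕ) : ℤ)) =
      conj (φ 0) * ((1 / Real.sqrt M : ℝ) * (ζ ^ m * f ((m * s : ℕ) : ZMod (M * s)))) +
      conj (φ (-1)) * ((1 / Real.sqrt M : ℝ) * (ζ ^ m * f ((m * s + (s - 1) : ℕ) : ZMod (M * s)))) := by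
    intro m _
    have h4 : ∀ v ∈ range s, (if (m * s + v) % s = 0 ∨ (m * s + v) % s = s - 1 then (1 : ℂ)
      else 0) * f ((m * s + v : ℕ) : ZMod (M * s)) *
        conj ((1 / Real.sqrt M : ℝ) * Pool.Agent.H98.AM.ext s ζ φ ((m * s + v : ℕ) : ℤ)) =
        (if v = 0 then conj (φ 0) * ((1 / Real.sqrt M : ℝ) * (ζ ^ m * f ((m * s : ℕ) : ZMod (M * s)))) else 0)
        + (if v = s - 1 then conj (φ (-1)) * ((1 / Real.sqrt M : ℝ) * (ζ ^ m *
          f ((m * s + (s - 1) : ℕ) : ZMod (M * s)))) else 0) := by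
      intro v hv
      have hv' := mem_range.1 hv
      have hmod : (m * s + v) % s = v := by
        rw [mul_comm, Nat.mul_add_mod, Nat.mod_eq_of_lt hv']
      rw [hmod, ext_block s ζ _ m v hv', map_mul, map_mul, map_pow, Complex.conj_conj, Complex.conj_ofReal]
      by_cases hv0 : v = 0
      · subst hv0
        rw [if_pos (Or.inl rfl), if_pos rfl, if_neg (by omega)]
        simp only [Nat.cast_zero, add_zero]
        ring
      · by_cases hv1 : v = s - 1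
        · subst hv1
          rw [if_pos (Or.inr rfl), if_neg hv0, if_pos rfl, hs1]
          ring
        · rw [if_neg (by tauto), if_neg hv0, if_neg hv1]
          ring
    rw [sum_congr rfl h4, sum_add_distrib, sum_ite_eq' (range s) 0, sum_ite_eq' (range s) (s - 1),
      if_pos (mem_range.2 (by omega)), if_pos (mem_range.2 (by omega))]
  rw [sum_congr rfl h3, sum_add_distrib, ← mul_sum, ← mul_sum, ← mul_sum, ← mul_sum, Finset.sum_range,
    Finset.sum_range]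

lemma norm_pj {H : Type} [NormedAddCommGroup H] [InnerProductSpace ℂ H] {κ : Type} [Fintype κ]
    (w : OrthonormalBasis κ ℂ H) (ew : κ → ℝ) (S : Set ℝ) (f : H) :
    ‖pj w ew S f‖ ^ 2 = ∑ x, (open Classical in if ew x ∈ S then ‖inner ℂ (w x) f‖ ^ 2 else 0) := by
  classical
  have h1 := w.sum_sq_norm_inner_right (pj w ew S f)
  rw [← h1]
  apply sum_congr rfl
  intro x _
  have : inner ℂ (w x) (pj w ew S f) = if ew x ∈ S then inner ℂ (w x) f else 0 := by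
    unfold pj
    rw [inner_sum, sum_eq_single x]
    · split_ifs
      · rw [inner_smul_right, orthonormal_iff_ite.1 w.orthonormal, if_pos rfl, mul_one]
      · simp
    · intro y _ hy
      split_ifs
      · rw [inner_smul_right, orthonormal_iff_ite.1 w.orthonormal, if_neg (Ne.symm hy), mul_zero]
      · simp
    · intro h
      exact absurd (mem_univ x) h
  rw [this]
  split_ifs <;> simp

/-- the common estimate -/
lemma weak_bound (hs : 3 ≤ s) (φ : Fin M → OrthonormalBasis (Fin s) ℂ (Rg s)) (ew : Fin M → Fin s → ℝ)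
    (w : OrthonormalBasis (Fin M × Fin s) ℂ (Rg (M * s)))
    (hw : ∀ k i (n : ZMod (M * s)), w (k, i) n
          = (1 / Real.sqrt M : ℝ) * Pool.Agent.H98.AM.ext s (ex ((k : ℕ) / (M : ℝ))) (φ k i) (n.val : ℤ))
    (S : Set ℝ) (B : ℝ)
    (hB : ∀ k, ∑ i, (open Classical in if ew k i ∈ S then (‖φ k i 0‖ ^ 2 + ‖φ k i (-1)‖ ^ 2) else 0) ≤ B)
    (f : Rg (M * s)) :
    ‖pj w (fun x => ew x.1 x.2) S (Qp s f)‖ ^ 2 ≤ B * ‖f‖ ^ 2 := by
  classical
  have hM : (0 : ℝ) < (M : ℝ) := by exact_mod_cast Nat.pos_of_ne_zero (NeZero.ne M)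
  set a0 : Fin M → ℂ := fun m => f (((m : ℕ) * s : ℕ) : ZMod (M * s)) with ha0
  set a1 : Fin M → ℂ := fun m => f (((m : ℕ) * s + (s - 1) : ℕ) : ZMod (M * s)) with ha1
  set F0 : Fin M → ℂ := fun k => (1 / Real.sqrt M : ℝ) * ∑ m : Fin M,
    ex ((k : ℕ) / (M : ℝ)) ^ (m : ℕ) * a0 m with hF0
  set F1 : Fin M → ℂ := fun k => (1 / Real.sqrt M : ℝ) * ∑ m : Fin M,
    ex ((k : ℕ) / (M : ℝ)) ^ (m : ℕ) * a1 m with hF1
  have hin : ∀ k i, inner ℂ (w (k, i)) (Qp s f) = conj (φ k i 0) * F0 k + conj (φ k i (-1)) * F1 k :=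
    fun k i => inner_weak hs (φ k i) (w (k, i)) (ex ((k : ℕ) / (M : ℝ))) (hw k i) f
  have hcs : ∀ a b c d : ℂ, ‖conj a * c + conj b * d‖ ^ 2 ≤ (‖a‖ ^ 2 + ‖b‖ ^ 2) * (‖c‖ ^ 2 + ‖d‖ ^ 2) := by
    intro a b c d
    have h1 : ‖conj a * c + conj b * d‖ ≤ ‖a‖ * ‖c‖ + ‖b‖ * ‖d‖ := by
      refine (norm_add_le _ _).trans ?_
      rw [norm_mul, norm_mul, RCLike.norm_conj, RCLike.norm_conj]
    have h2 : ‖conj a * c + conj b * d‖ ^ 2 ≤ (‖a‖ * ‖c‖ + ‖b‖ * ‖d‖) ^ 2 :=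
      pow_le_pow_left₀ (norm_nonneg _) h1 2
    nlinarith [sq_nonneg (‖a‖ * ‖d‖ - ‖b‖ * ‖c‖)]
  have hP : ∀ a : Fin M → ℂ, ∑ k : Fin M, ‖((1 / Real.sqrt M : ℝ) : ℂ) * ∑ m : Fin M,
      ex ((k : ℕ) / (M : ℝ)) ^ (m : ℕ) * a m‖ ^ 2 = ∑ m, ‖a m‖ ^ 2 := by
    intro a
    have h1 : ∀ k ∈ (univ : Finset (Fin M)), ‖((1 / Real.sqrt M : ℝ) : ℂ) * ∑ m : Fin M,
      ex ((k : ℕ) / (M : ℝ)) ^ (m : ℕ) * a m‖ ^ 2 = (1 / M) * ‖∑ m : Fin M,
      ex ((k : ℕ) / (M : ℝ)) ^ (m : ℕ) * a m‖ ^ 2 := by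
      intro k _
      rw [norm_mul, mul_pow, Complex.norm_real, Real.norm_eq_abs, sq_abs, div_pow, one_pow,
        Real.sq_sqrt hM.le]
    rw [sum_congr rfl h1, ← mul_sum, dft, ← mul_assoc, one_div, inv_mul_cancel₀ hM.ne', one_mul]
  have hsum : ∑ k, (‖F0 k‖ ^ 2 + ‖F1 k‖ ^ 2) ≤ ‖f‖ ^ 2 := by
    rw [sum_add_distrib, hP a0, hP a1, ← sum_add_distrib, EuclideanSpace.norm_sq_eq]
    have h1 : ∑ n : ZMod (M * s), ‖f n‖ ^ 2 = ∑ m ∈ range M, ∑ v ∈ range s,
        ‖f ((m * s + v : ℕ) : ZMod (M * s))‖ ^ 2 := by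
      rw [← sum_blocks (fun x => ‖f (x : ZMod (M * s))‖ ^ 2),
        ← sum_val (M * s) (fun x => ‖f (x : ZMod (M * s))‖ ^ 2)]
      apply sum_congr rfl
      intro n _
      rw [ZMod.natCast_zmod_val]
    rw [h1, Finset.sum_range]
    apply sum_le_sum
    intro m _
    have h2 : ∑ v ∈ ({0, s - 1} : Finset ℕ), ‖f (((m : ℕ) * s + v : ℕ) : ZMod (M * s))‖ ^ 2 ≤
        ∑ v ∈ range s, ‖f (((m : ℕ) * s + v : ℕ) : ZMod (M * s))‖ ^ 2 := by
      apply sum_le_sum_of_subset_of_nonneg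
      · intro v hv
        simp only [mem_insert, mem_singleton] at hv
        rcases hv with rfl | rfl <;> exact mem_range.2 (by omega)
      · intro _ _ _
        positivity
    rw [sum_pair (by omega)] at h2
    simpa [ha0, ha1] using h2
  rw [norm_pj]
  have h1 : ∑ x : Fin M × Fin s, (if ew x.1 x.2 ∈ S then ‖inner ℂ (w x) (Qp s f)‖ ^ 2 else 0) ≤
      ∑ k, (‖F0 k‖ ^ 2 + ‖F1 k‖ ^ 2) * B := by
    rw [Fintype.sum_prod_type]
    apply sum_le_sum
    intro k _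
    have h2 : ∑ i, (if ew k i ∈ S then ‖inner ℂ (w (k, i)) (Qp s f)‖ ^ 2 else 0) ≤
        (‖F0 k‖ ^ 2 + ‖F1 k‖ ^ 2) * ∑ i, (if ew k i ∈ S then (‖φ k i 0‖ ^ 2 + ‖φ k i (-1)‖ ^ 2) else 0) := by
      rw [mul_sum]
      apply sum_le_sum
      intro i _
      split_ifs
      · rw [hin]
        refine (hcs _ _ _ _).trans (le_of_eq (mul_comm _ _))
      · simp
    exact h2.trans (mul_le_mul_of_nonneg_left (hB k) (by positivity))
  have hB0 : 0 ≤ B := by
    refine le_trans ?_ (hB ⟨0, Nat.pos_of_ne_zero (NeZero.ne M)⟩)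
    apply sum_nonneg
    intro i _
    split_ifs <;> positivity
  refine h1.trans ?_
  rw [← sum_mul, mul_comm]
  exact mul_le_mul_of_nonneg_left hsum hB0

/-- density of states at the weak bonds of the ring -/
theorem f4 (hB4 : T_B4) (hC8 : T_C8) : T_F4 := by
  classical
  intro p s M _ _ θ mu ι _ u ev hp hs h hmu E d R hd hR hyp f
  obtain ⟨φ, ew, hφ, wb, hwb, hwf⟩ := bloch hB4 p s M θ hs
  rw [(f3_gen _ u ev wb _ h hwb (win E d)).1]
  refine weak_bound hs φ ew wb hwf (win E d) _ ?_ f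
  intro k
  have h1 := hC8 p s θ _ (Fin s) (φ k) (ew k) hp hs (norm_ex _) (hφ k) E d R hd hR hyp
  rw [sum_filter] at h1
  refine le_trans (le_of_eq ?_) (h1.trans ?_)
  · apply sum_congr rfl
    intro i _
    rfl
  · apply mul_le_mul_of_nonneg_left _ (by positivity)
    apply sum_le_sum
    intro e he
    exact div_le_div_of_nonneg_right (hmu e he) (norm_nonneg _)

/-- the same at phase `0` -/
theorem f5 (hB4 : T_B4) (hC1 : T_C1) (hC4 : T_C4) (hC6 : T_C6) : T_F5 := by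
  classical
  intro p s M _ _ ι _ u ev hp hs h E d f
  obtain ⟨⟨φ0, ew0, hφ0⟩, -⟩ := hB4 s (fb p s 0 1)
  have hb0 : bnd (p / s) 0 0 = 0 := by
    unfold bnd
    have : ex (((0 : ℤ) : ℝ) * (p / s) + 0) = 1 := by
      have := ex_int 0
      simpa using this
    rw [this, sub_self]
  have hfb : ∀ ζ : ℂ, fb p s 0 ζ = fb p s 0 1 := by
    intro ζ
    funext n
    unfold fb
    by_cases hn : n = 0
    · subst hn
      simp [hb0]
    · rw [if_neg hn, if_neg hn]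
  have hFi : ∀ ζ : ℂ, Fi p s 0 ζ = Fi p s 0 1 := fun ζ => by unfold Fi; rw [hfb ζ]
  have hφ : ∀ k : Fin M, IsEB (Fi p s 0 (ex ((k : ℕ) / (M : ℝ)))) φ0 ew0 := fun k => by
    rw [hFi]; exact hφ0
  obtain ⟨wb, hwb, hwf⟩ := f2 p s M 0 (fun _ => φ0) (fun _ => ew0) hs hφ
  rw [(f3_gen _ u ev wb _ h hwb (win E d)).1]
  refine weak_bound hs (fun _ => φ0) (fun _ => ew0) wb hwf (win E d) _ ?_ f
  intro _
  have htt : tt s 0 1 = 0 := by
    unfold tt
    rw [mul_zero]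
    have := ex_int 0
    simp only [Int.cast_zero] at this
    rw [this]
    simp
  have hev : ∀ i, (Dl p s).eval (ew0 i) = 0 := fun i => by
    rw [eval_ev hC1 p s 0 1 φ0 ew0 hp hs norm_one hφ0 i, htt]
  obtain ⟨hcard, -, -, hpos⟩ := hC6 p s hp hs
  have hD0 : Dl p s ≠ 0 := by
    intro h0
    rw [rts, h0] at hcard
    simp at hcard
    omega
  have hmem : ∀ i, ew0 i ∈ rts (Dl p s) := fun i =>
    Multiset.mem_toFinset.2 ((mem_roots hD0).2 (hev i))
  have hsub : rts (Dl p s) ⊆ univ.image ew0 := by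
    intro e he
    have he0 : (Dl p s).eval e = 0 := (mem_roots hD0).1 (Multiset.mem_toFinset.1 he)
    have h1 := hC1 p s 0 1 (Fin s) φ0 ew0 hp hs norm_one hφ0 e
    have h2 : aeval ((e : ℝ) : ℂ) (Dl p s) = (((Dl p s).eval e : ℝ) : ℂ) :=
      Polynomial.aeval_ofReal (Dl p s) e
    rw [h2, he0, htt] at h1
    simp only [Complex.ofReal_zero, sub_zero] at h1
    obtain ⟨i, hi, hi0⟩ := prod_eq_zero_iff.1 h1
    have : e = ew0 i := by exact_mod_cast sub_eq_zero.1 hi0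
    rw [this]
    exact mem_image_of_mem _ hi
  have hinj : Function.Injective ew0 := by
    have h1 : s ≤ (univ.image ew0).card := by
      calc s = (rts (Dl p s)).card := hcard.symm
        _ ≤ _ := card_le_card hsub
    have h2 : (univ.image ew0).card = (univ : Finset (Fin s)).card := by
      apply le_antisymm card_image_le
      rw [card_univ, Fintype.card_fin]; exact h1
    have := card_image_iff.1 h2
    exact fun a b hab => this (mem_coe.2 (mem_univ a)) (mem_coe.2 (mem_univ b)) hab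
  have h4 := hC4 p s (Fin s) φ0 ew0 hp hs hφ0
  have h5 : ∀ i ∈ (univ : Finset (Fin s)), (if ew0 i ∈ win E d then (‖φ0 i 0‖ ^ 2 + ‖φ0 i (-1)‖ ^ 2) else 0) =
      2 * s * (if |ew0 i - E| ≤ d then om (Dl p s) (ew0 i) else 0) := by
    intro i _
    by_cases hi : |ew0 i - E| ≤ d
    · rw [if_pos hi, if_pos (show ew0 i ∈ win E d from hi), (h4 i).1, (h4 i).2]
      ring
    · rw [if_neg hi, if_neg (show ew0 i ∉ win E d from hi), mul_zero]
  have h6 : ∑ i, (if ew0 i ∈ win E d then (‖φ0 i 0‖ ^ 2 + ‖φ0 i (-1)‖ ^ 2) else 0) ≤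
      2 * s * bm (Dl p s) (om (Dl p s)) E d := by
    rw [sum_congr rfl h5, ← mul_sum]
    apply mul_le_mul_of_nonneg_left _ (by positivity)
    unfold bm
    rw [← sum_filter]
    have h7 : ∑ i ∈ univ.filter (fun i => |ew0 i - E| ≤ d), om (Dl p s) (ew0 i) =
        ∑ e ∈ (univ.filter (fun i => |ew0 i - E| ≤ d)).image ew0, om (Dl p s) e :=
      (sum_image fun a _ b _ hab => hinj hab).symm
    rw [h7]
    apply sum_le_sum_of_subset_of_nonneg
    · intro e he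
      obtain ⟨i, hi, rfl⟩ := mem_image.1 he
      rw [mem_filter] at hi ⊢
      exact ⟨hmem i, hi.2⟩
    · intro e _ _
      unfold om
      positivity
  exact h6

end Pool.Agent.H81.AM
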