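import Pool.Agent.H81.AM.F2

/-!
# Critical almost Mathieu operator, modules F6, F7: eigenvalues of a ring
-/

open scoped ComplexConjugate
open Pool.Agent.H98.AM Finset Polynomial

noncomputable section

namespace Pool.Agent.H81.AM

/-- Bloch basis of a ring, existence -/
lemma bloch (hB4 : T_B4) (p : ℤ) (s M : ℕ) [NeZero s] [NeZero M] (θ : ℝ) (hs : 3 ≤ s) :
    ∃ (φ : Fin M → OrthonormalBasis (Fin s) ℂ (Rg s)) (ew : Fin M → Fin s → ℝ),
      (∀ k : Fin M, IsEB (Fi p s θ (ex ((k : ℕ) / (M : ℝ)))) (φ k) (ew k)) ∧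
      ∃ w : OrthonormalBasis (Fin M × Fin s) ℂ (Rg (M * s)),
        IsEB (Tr (p / s) θ (M * s)) w (fun x => ew x.1 x.2) ∧
        (∀ k i (n : ZMod (M * s)), w (k, i) n
          = (1 / Real.sqrt M : ℝ) * Pool.Agent.H98.AM.ext s (ex ((k : ℕ) / (M : ℝ))) (φ k i) (n.val : ℤ)) := by
  have h : ∀ k : Fin M, ∃ (u : OrthonormalBasis (Fin s) ℂ (Rg s)) (ev : Fin s → ℝ),
      IsEB (Fi p s θ (ex ((k : ℕ) / (M : ℝ)))) u ev := fun k =>
    (hB4 s (fb p s θ (ex ((k : ℕ) / (M : ℝ))))).1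
  choose φ ew hφ using h
  exact ⟨φ, ew, hφ, f2 p s M θ φ ew hs hφ⟩

lemma norm_one_sub_ex (a : ℝ) : ‖1 - ex a‖ ≤ 2 := by
  calc ‖1 - ex a‖ ≤ ‖(1 : ℂ)‖ + ‖ex a‖ := norm_sub_le _ _
    _ = 2 := by rw [norm_ex, norm_one]; norm_num

lemma abs_tt_le (s : ℕ) (θ : ℝ) {ζ : ℂ} (hζ : ‖ζ‖ = 1) : |tt s θ ζ| ≤ 2 * ‖1 - ex (s * θ)‖ := by
  unfold tt
  rw [abs_mul, abs_two]
  have := Complex.abs_re_le_norm (ζ * (1 - ex (s * θ)))
  rw [norm_mul, hζ, one_mul] at this
  linarith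

/-- the eigenvalues of a fibre satisfy the characteristic equation -/
lemma eval_ev (hC1 : T_C1) (p : ℤ) (s : ℕ) [NeZero s] (θ : ℝ) (ζ : ℂ)
    (u : OrthonormalBasis (Fin s) ℂ (Rg s)) (ev : Fin s → ℝ) (hp : IsCoprime p (s : ℤ)) (hs : 3 ≤ s)
    (hζ : ‖ζ‖ = 1) (h : IsEB (Fi p s θ ζ) u ev) (i : Fin s) : (Dl p s).eval (ev i) = tt s θ ζ := by
  have h1 := hC1 p s θ ζ (Fin s) u ev hp hs hζ h (ev i)
  rw [prod_eq_zero (mem_univ i) (sub_self _)] at h1
  have h2 : aeval ((ev i : ℝ) : ℂ) (Dl p s) = (((Dl p s).eval (ev i) : ℝ) : ℂ) :=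
    Polynomial.aeval_ofReal (Dl p s) (ev i)
  rw [h2] at h1
  have h3 := (sub_eq_zero.1 h1.symm)
  exact_mod_cast h3

/-- every eigenvalue of the ring is one of a fibre -/
lemma ev_fibre {N : ℕ} [NeZero N] {T : Rg N →ₗ[ℂ] Rg N} {ι κ : Type} [Fintype ι] [Fintype κ]
    {u : OrthonormalBasis ι ℂ (Rg N)} {ev : ι → ℝ} {w : OrthonormalBasis κ ℂ (Rg N)} {ew : κ → ℝ}
    (h : IsEB T u ev) (h' : IsEB T w ew) (i : ι) : ∃ x, ew x = ev i := by
  classical
  by_contra hc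
  push Not at hc
  have h1 := (f3_gen T u ev w ew h h' {ev i}).2
  have h2 : Nat.card {j // ew j ∈ ({ev i} : Set ℝ)} = 0 := by
    rw [Nat.card_eq_zero]
    left
    exact ⟨fun x => hc x.1 x.2⟩
  rw [h2, Nat.card_eq_zero] at h1
  rcases h1 with h1 | h1
  · exact h1.false ⟨i, rfl⟩
  · exact h1.not_finite inferInstance

/-- the spectrum of the ring lies in the bands -/
theorem f7 (hB4 : T_B4) (hC1 : T_C1) : T_F7 := by
  intro p s M _ _ θ ι _ u ev hp hs h i
  obtain ⟨φ, ew, hφ, w, hw, -⟩ := bloch hB4 p s M θ hs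
  refine ⟨?_, ?_⟩
  · obtain ⟨⟨k, j⟩, hx⟩ := ev_fibre h hw i
    have hζ := norm_ex ((k : ℕ) / (M : ℝ))
    have h1 := eval_ev hC1 p s θ _ (φ k) (ew k) hp hs hζ (hφ k) j
    simp only at hx
    rw [← hx, h1]
    have h2 := abs_tt_le s θ hζ
    have h3 := norm_one_sub_ex (s * θ)
    linarith
  · have h1 := ((hB4 (M * s) (rb (p / s) θ (M * s))).2 2 (fun n => norm_one_sub_ex _)).2 ι u ev h i
    linarith

/-- number of integers in an interval -/
lemma card_Icc_le (a b : ℝ) (hab : a ≤ b) : ((Icc ⌈a⌉ ⌊b⌋).card : ℝ) ≤ b - a + 1 := by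
  rw [Int.card_Icc]
  by_cases h : 0 ≤ ⌊b⌋ + 1 - ⌈a⌉
  · have h1 : (((⌊b⌋ + 1 - ⌈a⌉).toNat : ℕ) : ℝ) = ((⌊b⌋ + 1 - ⌈a⌉ : ℤ) : ℝ) := by
      have := Int.toNat_of_nonneg h
      exact_mod_cast this
    rw [h1]
    push_cast
    have := Int.floor_le b
    have := Int.le_ceil a
    linarith
  · have h1 : (⌊b⌋ + 1 - ⌈a⌉).toNat = 0 := Int.toNat_of_nonpos (by omega)
    rw [h1]
    push_cast
    linarith

/-- `|sin (π y)| ≤ c` forces `y` to be close to an integer -/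
lemma near_int {y c : ℝ} (h : |Real.sin (Real.pi * y)| ≤ c) : |y - round y| ≤ c / 2 := by
  have h1 : |y - round y| ≤ 1 / 2 := abs_sub_round y
  have h2 : |Real.sin (Real.pi * (y - round y))| = |Real.sin (Real.pi * y)| := by
    rw [mul_sub, mul_comm Real.pi (round y : ℝ), Real.sin_sub_int_mul_pi, abs_mul]
    have : |(-1 : ℝ) ^ (round y)| = 1 := by
      rw [abs_zpow, abs_neg, abs_one, one_zpow]
    rw [this, one_mul]
  have h3 : 2 * |y - round y| ≤ |Real.sin (Real.pi * (y - round y))| := by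
    set x := y - round y
    have hpi := Real.pi_pos
    have h4 := Real.mul_abs_le_abs_sin (x := Real.pi * x) (by
      rw [abs_mul, abs_of_pos hpi]
      nlinarith [abs_nonneg x])
    rw [abs_mul, abs_of_pos hpi] at h4
    calc 2 * |x| = 2 / Real.pi * (Real.pi * |x|) := by field_simp
      _ ≤ _ := h4
  rw [h2] at h3
  linarith

/-- counting on the circle -/
lemma count_circle (M : ℕ) [NeZero M] (x0 c : ℝ) (hc : 0 ≤ c) (K : Finset (Fin M))
    (hK : ∀ k ∈ K, |Real.cos (2 * Real.pi * ((k : ℕ) / (M : ℝ) + x0))| ≤ c) :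
    (K.card : ℝ) ≤ M * c + 2 := by
  classical
  have hM : (0 : ℝ) < (M : ℝ) := by exact_mod_cast Nat.pos_of_ne_zero (NeZero.ne M)
  set y0 : ℝ := 2 * x0 - 1 / 2 with hy0
  -- lifts
  have hlift : ∀ k ∈ K, ∃ z : Bool × ℤ, (∃ t : ℤ, (k : ℕ) = z.2 + M * t) ∧
      z.2 ∈ Icc ⌈(M : ℝ) * ((if z.1 then 1 else 0) - c / 2 - y0) / 2⌉
        ⌊(M : ℝ) * ((if z.1 then 1 else 0) + c / 2 - y0) / 2⌋ := by
    intro k hk
    have h1 : Real.cos (2 * Real.pi * ((k : ℕ) / (M : ℝ) + x0)) =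
        - Real.sin (Real.pi * (y0 + 2 * (k : ℕ) / M)) := by
      rw [← Real.cos_add_pi_div_two]
      congr 1
      rw [hy0]; ring
    have h2 := hK k hk
    rw [h1, abs_neg] at h2
    have h3 := near_int h2
    set n := round (y0 + 2 * (k : ℕ) / (M : ℝ)) with hn
    obtain ⟨t, ε, hε⟩ : ∃ (t : ℤ) (ε : Bool), n = 2 * t + (if ε then 1 else 0) := by
      rcases Int.even_or_odd' n with ⟨t, ht | ht⟩
      · exact ⟨t, false, by simp [ht]⟩
      · exact ⟨t, true, by simp [ht]⟩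
    refine ⟨(ε, (k : ℕ) - M * t), ⟨t, by ring⟩, ?_⟩
    simp only [mem_Icc]
    have h4 : (n : ℝ) = 2 * t + (if ε then 1 else 0) := by
      rw [hε]; push_cast; split_ifs <;> simp
    rw [h4, abs_le] at h3
    obtain ⟨h5, h6⟩ := h3
    have e : (M : ℝ) * (2 * ((k : ℕ) : ℝ) / M) = 2 * (k : ℕ) := by field_simp
    constructor
    · rw [Int.ceil_le]
      push_cast
      have := mul_le_mul_of_nonneg_left h5 hM.le
      nlinarith
    · rw [Int.le_floor]
      push_cast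
      have := mul_le_mul_of_nonneg_left h6 hM.le
      nlinarith
  let F : Finset (Bool × ℤ) := (univ : Finset Bool).biUnion fun ε =>
    (Icc ⌈(M : ℝ) * ((if ε then 1 else 0) - c / 2 - y0) / 2⌉
        ⌊(M : ℝ) * ((if ε then 1 else 0) + c / 2 - y0) / 2⌋).image fun j => (ε, j)
  choose! z hz1 hz2 using hlift
  have hcard : K.card ≤ F.card := by
    apply card_le_card_of_injOn z
    · intro k hk
      simp only [F, coe_biUnion, Set.mem_iUnion, mem_coe, mem_univ, mem_image, exists_prop, true_and]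
      exact ⟨(z k).1, (z k).2, hz2 k hk, rfl⟩
    · intro k hk l hl hkl
      obtain ⟨t, ht⟩ := hz1 k hk
      obtain ⟨t', ht'⟩ := hz1 l hl
      rw [hkl] at ht
      have hk2 := k.2
      have hl2 := l.2
      have h1 : ((k : ℕ) : ℤ) - (l : ℕ) = M * (t - t') := by rw [ht, ht']; ring
      have h2 : t - t' = 0 := by
        by_contra hne
        rcases lt_or_gt_of_ne hne with h' | h'
        · have : M * (t - t') ≤ M * (-1 : ℤ) := by
            apply mul_le_mul_of_nonneg_left (by omega) (by positivity)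
          omega
        · have : (M : ℤ) * 1 ≤ M * (t - t') := by
            apply mul_le_mul_of_nonneg_left (by omega) (by positivity)
          omega
      rw [h2, mul_zero] at h1
      exact Fin.ext (by omega)
  have hF : (F.card : ℝ) ≤ M * c + 2 := by
    have h1 : F.card ≤ ∑ ε : Bool, (Icc ⌈(M : ℝ) * ((if ε then 1 else 0) - c / 2 - y0) / 2⌉
        ⌊(M : ℝ) * ((if ε then 1 else 0) + c / 2 - y0) / 2⌋).card :=
      card_biUnion_le.trans (sum_le_sum fun ε _ => card_image_le)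
    have h2 : ∀ ε : Bool, ((Icc ⌈(M : ℝ) * ((if ε then 1 else 0) - c / 2 - y0) / 2⌉
        ⌊(M : ℝ) * ((if ε then 1 else 0) + c / 2 - y0) / 2⌋).card : ℝ) ≤ M * c / 2 + 1 := by
      intro ε
      refine (card_Icc_le _ _ ?_).trans (le_of_eq (by ring))
      have : 0 ≤ (M : ℝ) * c := by positivity
      nlinarith
    calc (F.card : ℝ) ≤ ((∑ ε : Bool, (Icc ⌈(M : ℝ) * ((if ε then 1 else 0) - c / 2 - y0) / 2⌉
        ⌊(M : ℝ) * ((if ε then 1 else 0) + c / 2 - y0) / 2⌋).card : ℕ) : ℝ) := by exact_mod_cast h1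
      _ = ∑ ε : Bool, ((Icc ⌈(M : ℝ) * ((if ε then 1 else 0) - c / 2 - y0) / 2⌉
        ⌊(M : ℝ) * ((if ε then 1 else 0) + c / 2 - y0) / 2⌋).card : ℝ) := by push_cast; rfl
      _ ≤ ∑ ε : Bool, (M * c / 2 + 1 : ℝ) := sum_le_sum fun ε _ => h2 ε
      _ = M * c + 2 := by rw [sum_const, card_univ, Fintype.card_bool]; simp; ring
  calc (K.card : ℝ) ≤ F.card := by exact_mod_cast hcard
    _ ≤ _ := hF

/-- number of eigenvalues of the ring near the centre of a band -/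
theorem f6 (hB4 : T_B4) (hC1 : T_C1) (hC5 : T_C5) (hD4 : T_D4) : T_F6 := by
  classical
  intro p s M _ _ θ ι _ u ev hp hs h e he w hw0 hw
  obtain ⟨φ, ew, hφ, wb, hwb, -⟩ := bloch hB4 p s M θ hs
  have hD := hC5 p s hp hs
  have hD0 : Dl p s ≠ 0 := hD.mon.ne_zero
  have hroot : (Dl p s).eval e = 0 := by
    have := (Multiset.mem_toFinset.1 he)
    exact (mem_roots hD0).1 this
  obtain ⟨hd1, hd2⟩ := hD4 s (Dl p s) hD (by omega) e hroot
  have hcard : Nat.card {i // |ev i - e| ≤ w} = Nat.card {x : Fin M × Fin s // |ew x.1 x.2 - e| ≤ w} :=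
    (f3_gen _ u ev wb _ h hwb {x | |x - e| ≤ w}).2
  set K : Finset (Fin M) := univ.filter (fun k => ∃ j, |ew k j - e| ≤ w) with hK
  have hinj : Nat.card {x : Fin M × Fin s // |ew x.1 x.2 - e| ≤ w} ≤ K.card := by
    rw [Nat.card_eq_fintype_card, Fintype.card_subtype]
    apply card_le_card_of_injOn Prod.fst
    · intro x hx
      simp only [coe_filter, mem_univ, true_and, Set.mem_ofPred_eq] at hx
      simp only [hK, coe_filter, mem_univ, true_and, Set.mem_ofPred_eq]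
      exact ⟨x.2, hx⟩
    · rintro ⟨k, i⟩ hx ⟨l, j⟩ hy hxy
      simp only [coe_filter, mem_univ, true_and, Set.mem_ofPred_eq] at hx hy
      simp only at hxy
      subst hxy
      have := hd2 (tt s θ (ex ((k : ℕ) / (M : ℝ)))) (ew k) (fun z =>
        (hC1 p s θ _ (Fin s) (φ k) (ew k) hp hs (norm_ex _) (hφ k) z).symm) i j (hx.trans hw) (hy.trans hw)
      rw [this]
  have hKM : K.card ≤ M := (card_le_univ K).trans (by simp)
  rw [hcard]
  refine ⟨hinj.trans hKM, fun hσ => ?_⟩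
  set σ := ‖1 - ex (s * θ)‖ with hσd
  -- om is positive
  have hbt : ∀ k ∈ K, |tt s θ (ex ((k : ℕ) / (M : ℝ)))| ≤ 2 * w / om (Dl p s) e := by
    intro k hk
    simp only [hK, mem_filter, mem_univ, true_and] at hk
    obtain ⟨j, hj⟩ := hk
    rw [← eval_ev hC1 p s θ _ (φ k) (ew k) hp hs (norm_ex _) (hφ k) j]
    refine (hd1 _ (hj.trans hw)).trans ?_
    have : 0 ≤ om (Dl p s) e := by unfold om; positivity
    gcongr
  have hom0 : 0 ≤ om (Dl p s) e := by unfold om; positivity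
  by_cases hc1 : 1 ≤ w / (om (Dl p s) e * σ)
  · have h1 : (Nat.card {x : Fin M × Fin s // |ew x.1 x.2 - e| ≤ w} : ℝ) ≤ M := by
      exact_mod_cast hinj.trans hKM
    have h2 : (M : ℝ) * 1 ≤ M * (w / (om (Dl p s) e * σ)) :=
      mul_le_mul_of_nonneg_left hc1 (Nat.cast_nonneg M)
    rw [mul_div_assoc]
    linarith
  · -- write 1 - ex (s θ) in polar form
    obtain ⟨x0, hx0⟩ : ∃ x0 : ℝ, 1 - ex (s * θ) = (σ : ℂ) * ex x0 := by
      refine ⟨(1 - ex (s * θ)).arg / (2 * Real.pi), ?_⟩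
      unfold ex
      have : (2 * (Real.pi : ℂ) * (((1 - Complex.exp (2 * Real.pi * ((s * θ : ℝ) : ℂ) * Complex.I)).arg /
          (2 * Real.pi) : ℝ) : ℂ) * Complex.I) =
          ((1 - Complex.exp (2 * Real.pi * ((s * θ : ℝ) : ℂ) * Complex.I)).arg : ℂ) * Complex.I := by
        push_cast
        have hpi : (Real.pi : ℂ) ≠ 0 := by exact_mod_cast Real.pi_ne_zero
        field_simp
      rw [this]
      exact (Complex.norm_mul_exp_arg_mul_I _).symm
    have hcos : ∀ k : Fin M, tt s θ (ex ((k : ℕ) / (M : ℝ))) =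
        2 * σ * Real.cos (2 * Real.pi * ((k : ℕ) / (M : ℝ) + x0)) := by
      intro k
      unfold tt
      rw [hx0]
      have h1 : ex ((k : ℕ) / (M : ℝ)) * ((σ : ℂ) * ex x0) = (σ : ℂ) * ex ((k : ℕ) / (M : ℝ) + x0) := by
        rw [ex_add]; ring
      rw [h1, Complex.re_ofReal_mul]
      have h2 : (ex ((k : ℕ) / (M : ℝ) + x0)).re = Real.cos (2 * Real.pi * ((k : ℕ) / (M : ℝ) + x0)) := by
        unfold ex
        rw [show (2 * (Real.pi : ℂ) * (((k : ℕ) / (M : ℝ) + x0 : ℝ) : ℂ) * Complex.I) =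
          ((2 * Real.pi * ((k : ℕ) / (M : ℝ) + x0) : ℝ) : ℂ) * Complex.I by push_cast; ring]
        exact Complex.exp_ofReal_mul_I_re _
      rw [h2]
      ring
    have hKc : ∀ k ∈ K, |Real.cos (2 * Real.pi * ((k : ℕ) / (M : ℝ) + x0))| ≤
        w / (om (Dl p s) e * σ) := by
      intro k hk
      have h1 := hbt k hk
      rw [hcos, abs_mul, abs_of_pos (by positivity : 0 < 2 * σ)] at h1
      have h2 : w / (om (Dl p s) e * σ) = (2 * w / om (Dl p s) e) / (2 * σ) := by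
        rw [div_div]
        rw [show om (Dl p s) e * (2 * σ) = 2 * (om (Dl p s) e * σ) by ring, mul_div_mul_left _ _ two_ne_zero]
      rw [h2, le_div_iff₀ (by positivity), mul_comm]
      exact h1
    have h1 := count_circle M x0 _ (by positivity) K hKc
    have h2 : (Nat.card {x : Fin M × Fin s // |ew x.1 x.2 - e| ≤ w} : ℝ) ≤ K.card := by
      exact_mod_cast hinj
    rw [mul_div_assoc]
    linarith

end Pool.Agent.H81.AM
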